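import Pool.Agent.H933.RN.Fin
import Pool.Graph.R_seed8.W706.HIR.Final

/-!
# Reductive operators and the log-log condition: couplings
-/

set_option autoImplicit false
set_option linter.unusedSectionVars false
set_option linter.unusedVariables false

open MeasureTheory Metric Polynomial
open scoped Real InnerProductSpace NNReal

namespace Pool.Agent.H933.RN

open Pool.Agent.W402.HI Pool.Agent.W706.HIR Pool.Agent.H933.LL Pool.Agent.K4H63.RD

/-- every reductive operator `T` such that `q(T)` is similar to the restriction of `C` to a closed invariant subspace, is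
normal, if `T` has a compact self-commutator or `n` holds -/
def GoodOp {G : Type} [NormedAddCommGroup G] [InnerProductSpace ℂ G] [CompleteSpace G]
    (C : G →L[ℂ] G) (n : Prop) : Prop :=
  ∀ (H : Type) [NormedAddCommGroup H] [InnerProductSpace ℂ H] [CompleteSpace H]
    (T : H →L[ℂ] H) (q : ℂ[X]) (J : H →L[ℂ] G), Reductive T → 0 < q.natDegree →
    (∃ c : ℝ, 0 < c ∧ ∀ x, c * ‖x‖ ≤ ‖J x‖) → C.comp J = J.comp (aeval T q) →
    (IsCompactOperator (sc T) ∨ n) → IsStarNormal T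

section G

variable {G : Type} [NormedAddCommGroup G] [InnerProductSpace ℂ G] [CompleteSpace G]

lemma GoodOp.self {N K : G →L[ℂ] G} (hN : IsStarNormal N) (hK : IsCompactOperator K) {n : Prop}
    (h : GoodOp (N + K) n) (hred : Reductive (N + K)) : IsStarNormal (N + K) := by
  refine h G (N + K) X 1 hred (by rw [natDegree_X]; exact one_pos) ⟨1, one_pos, fun x => ?_⟩ ?_
    (Or.inl (compact_sc hN hK))
  · rw [one_mul]; exact le_rfl
  · rw [aeval_X]
    rfl

/-- `E` is thin near `l` -/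
def ThinAt (E : Set ℂ) (l : ℂ) (s : ℝ) : Prop := ∃ r : ℝ, 0 < r ∧ volume (E ∩ ball l r) = 0 ∧
  IntegrableOn (fun z : ℂ => (infDist z E) ^ (-s)) (ball l r)

lemma totDisc_mono {s t : Set ℂ} (h : IsTotallyDisconnected t) (hst : s ⊆ t) :
    IsTotallyDisconnected s := fun S hS hc => h S (hS.trans hst) hc

/-- good points of `N + κ K` outside a set of capacity zero -/
theorem qe_good {N K : G →L[ℂ] G} {η s : ℝ} (hη : 0 < η) (hs : η < s) (hN : IsStarNormal N)
    (hK : LogSchatten K η) :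
    CapNull {κ : ℂ | ¬ ∀ l, ThinAt (spectrum ℂ N) l s → LogLogAt (N + κ • K) l} := by
  classical
  obtain ⟨f, hf⟩ := exists_surjective_nat (ℚ × ℚ × ℚ)
  set c : ℕ → ℂ := fun n => ⟨((f n).1 : ℝ), ((f n).2.1 : ℝ)⟩ with hc
  set r : ℕ → ℝ := fun n => ((f n).2.2 : ℝ) with hr
  have h1 : ∀ n : ℕ, CapNull {κ : ℂ | (volume (spectrum ℂ N ∩ ball (c n) (r n)) = 0 ∧
      IntegrableOn (fun z : ℂ => (infDist z (spectrum ℂ N)) ^ (-s)) (ball (c n) (r n))) ∧
      ¬ ∀ z ∈ ball (c n) (r n), LogLogAt (N + κ • K) z} := by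
    intro n
    by_cases h : volume (spectrum ℂ N ∩ ball (c n) (r n)) = 0 ∧
      IntegrableOn (fun z : ℂ => (infDist z (spectrum ℂ N)) ^ (-s)) (ball (c n) (r n))
    · exact (normal_qe fixmu Pool.Agent.H21.LL.p_nor5 N K η s (c n) (r n) hη hs hN hK h.1
        h.2).mono fun κ hκ => hκ.2
    · refine CapNull.mono (t := ∅) (fun μ _ _ _ _ => by simp) ?_
      intro κ hκ
      exact h hκ.1
  refine (CapNull.iUnion h1).mono fun κ hκ => ?_
  simp only [Set.mem_setOf_eq, not_forall] at hκ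
  obtain ⟨l, ⟨ρ, hρ, h2, h3⟩, h4⟩ := hκ
  -- a rational disc
  obtain ⟨r', hr'1, hr'2⟩ := exists_rat_btwn (show (ρ / 4 : ℝ) < ρ / 2 by linarith)
  obtain ⟨x, hx1, hx2⟩ := exists_rat_btwn (show l.re - ρ / 16 < l.re + ρ / 16 by linarith)
  obtain ⟨y, hy1, hy2⟩ := exists_rat_btwn (show l.im - ρ / 16 < l.im + ρ / 16 by linarith)
  obtain ⟨n, hn⟩ := hf (x, y, r')
  have hcn : c n = ⟨(x : ℝ), (y : ℝ)⟩ := by simp only [hc, hn]
  have hrn : r n = (r' : ℝ) := by simp only [hr, hn]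
  have hd : dist l (c n) ≤ ρ / 8 := by
    rw [dist_eq_norm, hcn]
    refine (Complex.norm_le_abs_re_add_abs_im _).trans ?_
    simp only [Complex.sub_re, Complex.sub_im]
    have e1 : |l.re - (x : ℝ)| ≤ ρ / 16 := abs_le.2 ⟨by linarith, by linarith⟩
    have e2 : |l.im - (y : ℝ)| ≤ ρ / 16 := abs_le.2 ⟨by linarith, by linarith⟩
    linarith
  have hsub : ball (c n) (r n) ⊆ ball l ρ := by
    rw [hrn]
    refine ball_subset_ball' ?_
    rw [dist_comm]
    linarith
  have hmem : l ∈ ball (c n) (r n) := by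
    rw [mem_ball, hrn]
    linarith
  refine Set.mem_iUnion.2 ⟨n, ⟨measure_mono_null (Set.inter_subset_inter_right _ hsub) h2,
    h3.mono_set hsub⟩, fun h5 => h4 (h5 l hmem)⟩

theorem couplings (hr : P_riesz) (hlf : P_left) (hsc : P_sc) {N K : G →L[ℂ] G} {η s : ℝ}
    (hη : 0 < η) (hs : η < s) (hN : IsStarNormal N) (hK : LogSchatten K η)
    (hbad : IsTotallyDisconnected {l | l ∈ spectrum ℂ N ∧ ¬ ThinAt (spectrum ℂ N) l s}) :
    CapNull {κ : ℂ | ¬ GoodOp (N + κ • K) (volume (spectrum ℂ N) = 0)} := by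
  have hKc : IsCompactOperator K := Pool.Agent.H21.LL.p_nor5.2.2 G K η hη hK
  refine (qe_good hη hs hN hK).mono fun κ hκ h => hκ ?_
  intro H _ _ _ T q J hred hq hJ hD hn
  refine both hsc hN (hKc.smul κ) (fun V _ _ _ A j l hl hj =>
    good_left hr hlf hN (hKc.smul κ) (totDisc_mono hbad ?_) hl hj) hred hq hJ hD hn
  intro z hz
  refine ⟨hz.1, fun ht => hz.2 ⟨h z ht, ?_⟩⟩
  obtain ⟨r, h1, h2, -⟩ := ht
  exact ⟨r, h1, h2⟩

theorem individual' (hr : P_riesz) (hf : P_fin) (hrt : P_rate) (hlf : P_left) (hsc : P_sc)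
    {N K : G →L[ℂ] G} {η : ℝ} (hη : 0 < η) (hN : IsStarNormal N) (hK : LogSchatten K η)
    (hbad : IsTotallyDisconnected {z | z ∈ spectrum ℂ N ∧ ¬ Accessible (spectrum ℂ N) z η}) :
    GoodOp (N + K) (volume (spectrum ℂ N) = 0) := by
  intro H _ _ _ T q J hred hq hJ hD hn
  refine individual hr hf hrt hlf hsc hη hN hK (totDisc_mono hbad ?_) hred hq hJ hD hn
  intro z hz
  exact ⟨hz.1, fun h => hz.2 (acc_of_accessible hη ⟨z, hz.1⟩ h)⟩

end G

end Pool.Agent.H933.RN
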