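import Pool.Agent.H933.RN.Stm
import Pool.Agent.H670.LL.Sep

/-!
# Reductive operators and the log-log condition: assembly
-/

set_option autoImplicit false
set_option linter.unusedSectionVars false
set_option linter.unusedVariables false

open MeasureTheory Metric Polynomial
open scoped Real InnerProductSpace NNReal

namespace Pool.Agent.H933.RN

open Pool.Agent.W402.HI Pool.Agent.W706.HIR Pool.Agent.H933.LL Pool.Agent.K4H63.RD

theorem sep : P_sep := Pool.Agent.H670.LL.p_sep (Pool.Agent.H784.LL.p_cut LL.domar)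

section A

variable {X : Type} [NormedAddCommGroup X] [NormedSpace ℂ X] [CompleteSpace X]

theorem hasHyp_one (T : X →L[ℂ] X) (l : ℂ) (hl : l ∈ spectrum ℂ T) (hL : LogLogAt T l)
    (hn : (spectrum ℂ T).Nontrivial) : HasHyp T := by
  obtain ⟨V, ⟨h1, h2⟩, h3, h4⟩ := hyper_one sep T l hl hL hn
  exact ⟨V, h1, h3, h4, h2⟩

lemma spec_scalar {T : X →L[ℂ] X} (h : IsScalar T) : ¬ (spectrum ℂ T).Nontrivial := by
  obtain ⟨c, hc⟩ := h
  have hs : spectrum ℂ T ⊆ {c} := by
    intro z hz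
    by_contra hzc
    apply hz
    have h6 : z - c ≠ 0 := sub_ne_zero.2 hzc
    have h7 : IsUnit (algebraMap ℂ (X →L[ℂ] X) (z - c)) :=
      (Units.mk0 _ h6).isUnit.map (algebraMap ℂ (X →L[ℂ] X))
    rw [spectrum.mem_resolventSet_iff]
    rw [map_sub] at h7
    have h8 : T = algebraMap ℂ (X →L[ℂ] X) c := by rw [hc, Algebra.algebraMap_eq_smul_one]
    rw [h8]
    exact h7
  rintro ⟨x, hx, y, hy, hxy⟩
  exact hxy ((hs hx).trans (hs hy).symm)

/-- a spectrum of at least two points: a good point or a totally disconnected spectrum -/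
theorem hasHyp_of (hr : P_riesz) (T : X →L[ℂ] X) (hn : (spectrum ℂ T).Nontrivial)
    (h : (∃ l ∈ spectrum ℂ T, LogLogAt T l) ∨ IsTotallyDisconnected (spectrum ℂ T)) :
    HasHyp T := by
  rcases h with ⟨l, hl, hL⟩ | h
  · exact hasHyp_one T l hl hL hn
  · refine hr X T fun hc => ?_
    exact Set.not_subsingleton_iff.2 hn (h _ subset_rfl hc)

end A

section G

variable {G : Type} [NormedAddCommGroup G] [InnerProductSpace ℂ G] [CompleteSpace G]
variable {V : Type} [NormedAddCommGroup V] [InnerProductSpace ℂ V] [CompleteSpace V]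
variable {H : Type} [NormedAddCommGroup H] [InnerProductSpace ℂ H] [CompleteSpace H]

lemma sub_of_not_out {N : G →L[ℂ] G} {A : V →L[ℂ] V}
    (hout : ¬ ∃ z, z ∈ resolventSet ℂ N ∧ z ∈ spectrum ℂ A) : spectrum ℂ A ⊆ spectrum ℂ N := by
  push Not at hout
  intro z hz
  by_contra hzN
  have : z ∈ resolventSet ℂ N := by
    by_contra h'
    exact hzN h'
  exact hout z this hz

/-- operators similar to restrictions of `N + K`, accessible spectrum -/
theorem acc_left (hr : P_riesz) (hf : P_fin) (hrt : P_rate) (hlf : P_left) {N K : G →L[ℂ] G}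
    {η : ℝ} (hη : 0 < η) (hN : IsStarNormal N) (hK : LogSchatten K η)
    (hbad : IsTotallyDisconnected {z | z ∈ spectrum ℂ N ∧ ¬ AccAt (spectrum ℂ N) z η})
    {A : V →L[ℂ] V} {j : V →L[ℂ] G} {l : G →L[ℂ] V}
    (hl : ∀ v, l (j v) = v) (h : ∀ v, (N + K) (j v) = j (A v)) : IsScalar A ∨ HasHyp A := by
  have hnor := Pool.Agent.H21.LL.p_nor5
  have hKc : IsCompactOperator K := hnor.2.2 G K η hη hK
  by_cases hout : ∃ z, z ∈ resolventSet ℂ N ∧ z ∈ spectrum ℂ A
  · obtain ⟨z, hz1, hz2⟩ := hout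
    exact outside_left hKc hl h hz1 hz2
  have hsub := sub_of_not_out hout
  by_cases hnt : (spectrum ℂ A).Nontrivial
  swap
  · exact single_left hN hKc hl h hnt
  right
  refine hasHyp_of hr A hnt ?_
  by_cases hacc : ∃ z ∈ spectrum ℂ A, AccAt (spectrum ℂ N) z η
  swap
  · right
    push Not at hacc
    intro S hS hc
    exact hbad S (fun z hz => ⟨hsub (hS hz), hacc z (hS hz)⟩) hc
  left
  obtain ⟨z, hz, hG⟩ := hacc
  refine ⟨z, hz, ?_⟩
  have hE : IsClosed (spectrum ℂ N) := spectrum.isClosed N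
  have hne : (spectrum ℂ N).Nonempty := ⟨z, hsub hz⟩
  obtain ⟨E', ρ, q, g, hE'c, hsubE, k1, k2, k3, k4, k5, k6, k7, B, C, hB, hch⟩ := hG
  have hne' : E'.Nonempty := hne.mono hsubE
  have hBN : ∀ b ∈ B, b ∈ resolventSet ℂ N := by
    intro b hb
    by_contra h'
    exact (hB b hb).2 (hsubE h')
  have hBA : ∀ b ∈ B, b ∈ resolventSet ℂ A := by
    intro b hb
    by_contra h'
    exact (hB b hb).2 (hsubE (hsub h'))
  obtain ⟨R, hR1, hR2, hR3⟩ := hf G V N K A j l B hKc hl h fun b hb => ⟨hBN b hb, hBA b hb⟩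
  obtain ⟨C', hC'⟩ := hrt G N K R (spectrum ℂ N) (pw η) (pw_nonneg η) (fun c hc => by
    obtain ⟨C, hC⟩ := hnor.1 G N K (spectrum ℂ N) η hN hE hne le_rfl hη hK c hc
    exact ⟨C, hC.congr (pw_eq η)⟩) hR1
  have hLL : LogLogAt (N + (K + R)) z := by
    refine pert_at chb5 whit5 N (K + R) E' (pw η) C' g z ρ q k2 k1 hE'c hne' (pw_nonneg η) k5 k4
      k3 k6 k7 ⟨B, C, fun b hb => ⟨hR3 b hb, (hB b hb).2⟩, hch⟩ (hC'.mono hne hsubE)
  refine hlf G V (N + (K + R)) A j l z ρ hl (fun v => ?_) k1 ?_ hLL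
  · rw [← h]
    change N (j v) + (K (j v) + R (j v)) = N (j v) + K (j v)
    rw [hR2, add_zero]
  · exact measure_mono_null (Set.inter_subset_inter_left _ (hsub.trans hsubE)) k3

/-- the left model of a restriction -/
lemma model_restrict {C : G →L[ℂ] G} {T : H →L[ℂ] H} {q : ℂ[X]} {J : H →L[ℂ] G} {L : G →L[ℂ] H}
    (hL : ∀ v, L (J v) = v) (hJ : ∀ v, C (J v) = J (aeval T q v)) (W : Submodule ℂ H)
    (hW : ∀ x ∈ W, T x ∈ W) [CompleteSpace W] :
    (∀ v : W, (W.orthogonalProjection.comp L) ((J.comp W.subtypeL) v) = v) ∧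
    ∀ v : W, C ((J.comp W.subtypeL) v) = (J.comp W.subtypeL) (aeval (T.restrict hW) q v) := by
  refine ⟨fun v => ?_, fun v => ?_⟩
  · change W.orthogonalProjection (L (J (v : H))) = v
    rw [hL]
    exact Submodule.orthogonalProjection_mem_subspace_eq_self v
  · change C (J (v : H)) = J ((aeval (T.restrict hW) q v : W) : H)
    rw [aeval_restrict, hJ]

/-- a principle for both situations -/
theorem both (hsc : P_sc) {N K : G →L[ℂ] G} (hN : IsStarNormal N) (hK : IsCompactOperator K)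
    (hcl : ∀ (V : Type) [NormedAddCommGroup V] [InnerProductSpace ℂ V] [CompleteSpace V]
      (A : V →L[ℂ] V) (j : V →L[ℂ] G) (l : G →L[ℂ] V), (∀ v, l (j v) = v) →
      (∀ v, (N + K) (j v) = j (A v)) → IsScalar A ∨ HasHyp A)
    {T : H →L[ℂ] H} (hred : Reductive T) {q : ℂ[X]} (hq : 0 < q.natDegree) {J : H →L[ℂ] G}
    (hJ : ∃ c : ℝ, 0 < c ∧ ∀ x, c * ‖x‖ ≤ ‖J x‖) (hD : (N + K).comp J = J.comp (aeval T q))
    (h : IsCompactOperator (sc T) ∨ volume (spectrum ℂ N) = 0) : IsStarNormal T := by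
  obtain ⟨L, hL⟩ := left_inverse hJ
  have hD' : ∀ v, (N + K) (J v) = J (aeval T q v) := fun v =>
    congrArg (fun S : H →L[ℂ] G => S v) hD
  rcases h with h | h
  · refine hsc H T q hred h fun W hW hnt => ?_
    have : CompleteSpace W := hW.1.completeSpace_coe
    obtain ⟨h1, h2⟩ := model_restrict hL hD' W hW.inv
    rcases hcl W _ _ _ h1 h2 with h3 | h3
    · rcases alg_hyp hq h3 with hc | h4
      · exact absurd hnt (spec_scalar hc)
      · exact Or.inr h4
    · exact Or.inl h3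
  · exact class_normal hN hK h hcl hred hq hL hD'

/-- compact perturbations with logarithmic decay of normal operators with accessible spectrum -/
theorem individual (hr : P_riesz) (hf : P_fin) (hrt : P_rate) (hlf : P_left) (hsc : P_sc)
    {N K : G →L[ℂ] G} {η : ℝ} (hη : 0 < η) (hN : IsStarNormal N) (hK : LogSchatten K η)
    (hbad : IsTotallyDisconnected {z | z ∈ spectrum ℂ N ∧ ¬ AccAt (spectrum ℂ N) z η})
    {T : H →L[ℂ] H} (hred : Reductive T) {q : ℂ[X]} (hq : 0 < q.natDegree) {J : H →L[ℂ] G}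
    (hJ : ∃ c : ℝ, 0 < c ∧ ∀ x, c * ‖x‖ ≤ ‖J x‖) (hD : (N + K).comp J = J.comp (aeval T q))
    (h : IsCompactOperator (sc T) ∨ volume (spectrum ℂ N) = 0) : IsStarNormal T :=
  both hsc hN (Pool.Agent.H21.LL.p_nor5.2.2 G K η hη hK)
    (fun V _ _ _ A j l hl hj => acc_left hr hf hrt hlf hη hN hK hbad hl hj) hred hq hJ hD h

/-- all points good -/
theorem good_left (hr : P_riesz) (hlf : P_left) {N K : G →L[ℂ] G} (hN : IsStarNormal N)
    (hK : IsCompactOperator K)
    (hbad : IsTotallyDisconnected {z | z ∈ spectrum ℂ N ∧ ¬ (LogLogAt (N + K) z ∧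
      ∃ r : ℝ, 0 < r ∧ volume (spectrum ℂ N ∩ ball z r) = 0)})
    {A : V →L[ℂ] V} {j : V →L[ℂ] G} {l : G →L[ℂ] V}
    (hl : ∀ v, l (j v) = v) (h : ∀ v, (N + K) (j v) = j (A v)) : IsScalar A ∨ HasHyp A := by
  by_cases hout : ∃ z, z ∈ resolventSet ℂ N ∧ z ∈ spectrum ℂ A
  · obtain ⟨z, hz1, hz2⟩ := hout
    exact outside_left hK hl h hz1 hz2
  have hsub := sub_of_not_out hout
  by_cases hnt : (spectrum ℂ A).Nontrivial
  swap
  · exact single_left hN hK hl h hnt
  right
  refine hasHyp_of hr A hnt ?_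
  by_cases hacc : ∃ z ∈ spectrum ℂ A, LogLogAt (N + K) z ∧
      ∃ r : ℝ, 0 < r ∧ volume (spectrum ℂ N ∩ ball z r) = 0
  swap
  · right
    push Not at hacc
    intro S hS hc
    refine hbad S (fun z hz => ⟨hsub (hS hz), ?_⟩) hc
    rintro ⟨h1, r, h2, h3⟩
    exact hacc z (hS hz) h1 r h2 h3
  left
  obtain ⟨z, hz, h1, r, h2, h3⟩ := hacc
  exact ⟨z, hz, hlf G V (N + K) A j l z r hl h h2
    (measure_mono_null (Set.inter_subset_inter_left _ hsub) h3) h1⟩

/-- the general criterion -/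
theorem criterion (hr : P_riesz) (hsc : P_sc) (hre : P_restr)
    {T : H →L[ℂ] H} (hred : Reductive T) {q : ℂ[X]} (hq : 0 < q.natDegree)
    (hbad : IsTotallyDisconnected {z | z ∈ spectrum ℂ (aeval T q) ∧ ¬ LogLogAt (aeval T q) z})
    (h : IsCompactOperator (sc T) ∨ ∃ (G : Type) (_ : NormedAddCommGroup G)
      (_ : InnerProductSpace ℂ G) (_ : CompleteSpace G) (N : G →L[ℂ] G) (J : H →L[ℂ] G),
      IsStarNormal N ∧ volume (spectrum ℂ N) = 0 ∧ (∃ c : ℝ, 0 < c ∧ ∀ x, c * ‖x‖ ≤ ‖J x‖) ∧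
      IsCompactOperator (N.comp J - J.comp (aeval T q) : H →L[ℂ] G)) : IsStarNormal T := by
  have key : ∀ (W : Submodule ℂ H) (hW : Pool.Agent.W706.HIR.Hyper T W),
      (spectrum ℂ (T.restrict hW.inv)).Nontrivial →
      HasHyp (aeval (T.restrict hW.inv) q) ∨ HasHyp (T.restrict hW.inv) := by
    intro W hW hnt
    have : CompleteSpace W := hW.1.completeSpace_coe
    obtain ⟨h1, h2⟩ := hre H T q hred W hW
    set A := aeval (T.restrict hW.inv) q with hA
    by_cases hnA : (spectrum ℂ A).Nontrivial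
    · left
      refine hasHyp_of hr A hnA ?_
      by_cases hacc : ∃ z ∈ spectrum ℂ A, LogLogAt (aeval T q) z
      · obtain ⟨z, hz, hz'⟩ := hacc
        exact Or.inl ⟨z, hz, h2 z hz'⟩
      · right
        push Not at hacc
        intro S hS hc
        exact hbad S (fun z hz => ⟨h1 (hS hz), hacc z (hS hz)⟩) hc
    · right
      refine countable_hyp ?_ hnt
      have hWn : Nontrivial W := by
        by_contra hW'
        rw [not_nontrivial_iff_subsingleton] at hW'
        obtain ⟨x, hx, -⟩ := hnt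
        exact absurd (spectrum.of_subsingleton (R := ℂ) (T.restrict hW.inv) ▸ hx)
          (Set.notMem_empty x)
      have h3 : spectrum ℂ A = (fun k => eval k q) '' spectrum ℂ (T.restrict hW.inv) :=
        spectrum.map_polynomial_aeval (T.restrict hW.inv) q
      obtain ⟨x, hx, -⟩ := hnt
      have h4 : ∀ y ∈ spectrum ℂ (T.restrict hW.inv), eval y q = eval x q := by
        intro y hy
        by_contra hne
        exact hnA ⟨eval y q, h3 ▸ ⟨y, hy, rfl⟩, eval x q, h3 ▸ ⟨x, hx, rfl⟩, hne⟩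
      have hqc : q - Polynomial.C (eval x q) ≠ 0 := by
        intro h
        have h1 := natDegree_sub_C (p := q) (a := eval x q)
        rw [h, natDegree_zero] at h1
        omega
      have h5 : spectrum ℂ (T.restrict hW.inv) ⊆ {y | y ∈ (q - Polynomial.C (eval x q)).roots} := by
        intro y hy
        simp only [Set.mem_setOf_eq]
        rw [mem_roots hqc, IsRoot.def, eval_sub, eval_C, h4 y hy, sub_self]
      exact (Set.Finite.subset (Multiset.finite_toSet _) h5).countable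
  rcases h with h | ⟨G, _, _, _, N, J, h1, h2, h3, h4⟩
  · exact hsc H T q hred h key
  · exact final_principle h1 h2 hred hq h3 h4 key

end G

end Pool.Agent.H933.RN
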