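import Pool.Agent.H933.LL.Loc7
import Pool.Graph.R_pool_sql_team_seeded_c8625f6e.K4H63.RD.B9

/-!
# Reductive operators and the log-log condition (MP_49c4d9_an): statements of the steps

Notions of the library: `W402.HI.HasHyp` (nontrivial hyperinvariant subspace), `W402.HI.IsScalar`,
`W706.HIR.Reductive`, `W706.HIR.Hyper`, `W706.HIR.sc` (self-commutator). `LL.LogLogAt T l`: the point `l` is good.
-/

set_option autoImplicit false

open MeasureTheory Metric Polynomial
open scoped Real InnerProductSpace NNReal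

namespace Pool.Agent.H933.RN

open Pool.Agent.W402.HI Pool.Agent.W706.HIR Pool.Agent.H933.LL

/-- **P_riesz** (disconnected spectrum gives a hyperinvariant subspace). The spectrum is `σ₁ ∪ σ₂`, disjoint nonempty
compact sets. Riesz idempotent `P` in the bicommutant, `P ≠ 0, 1`, `V = ker P`.
Possible proof: a smooth function `χ` with compact support, `1` near `σ₁`, `0` near `σ₂`;
`P = c ∫ (∂̄χ)(z) (z - T)⁻¹ dA(z)`; Cauchy-Pompeiu and the resolvent identity (the library has asymptotically
holomorphic functional calculi, e.g. `Pool.Graph.R_seed8.W402.HI.*`, and perhaps the Riesz idempotent itself: look for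
idempotent, Riesz, clopen, disconnected spectrum in the library index first). -/
def P_riesz : Prop := ∀ (X : Type) [NormedAddCommGroup X] [NormedSpace ℂ X] [CompleteSpace X]
  (T : X →L[ℂ] X), ¬ IsPreconnected (spectrum ℂ T) → HasHyp T

/-- **P_fin** (finite rank corrections off the range of `j`).
Proof. One point `b` first: `D = C - b = (N - b) + K`. Write `K = S + F`, `F` of finite rank, `‖(N - b)⁻¹‖ ‖S‖ < 1`; `N' = N - b + S` is
invertible, `D = N' (1 + N'⁻¹ F)`. So `k = dim ker D < ∞`, the range of `D` is closed and has codimension `k` (finite-dimensional linear algebra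
for `1 + N'⁻¹ F`). `W = range j` is closed (`l j = 1`), `D W = W` and `ker D ∩ W = 0` (since `b` is in the resolvent set of `A`). Choose
a continuous projection `π` onto `ker D` which vanishes on `W` (Hahn-Banach in the quotient by `W`) and a
complement `Y` of the range of `D`, `dim Y = k`, and `R = (isomorphism ker D → Y) ∘ π`. Then `D + R` is bijective, `R j = 0`.
Several points: induction. If `R` serves for `b_1, ..., b_k` and `R'` (applied to `C + R` in the place of `C`; `C + R` is again normal plus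
compact) for `b_{k+1}`, then `R + κ R'`, `κ > 0` small, serves for all of them: openness of the invertible operators for `b_1, ..., b_k`, and
`C + R + κ R' - b_{k+1} = (C + R + R' - b_{k+1}) (1 + (κ - 1) (...)⁻¹ R')` is not invertible only for finitely many `κ` (eigenvalues of a
finite rank operator). -/
def P_fin : Prop := ∀ (G V : Type) [NormedAddCommGroup G] [InnerProductSpace ℂ G] [CompleteSpace G]
  [NormedAddCommGroup V] [InnerProductSpace ℂ V] [CompleteSpace V]
  (N K : G →L[ℂ] G) (A : V →L[ℂ] V) (j : V →L[ℂ] G) (l : G →L[ℂ] V) (B : Finset ℂ),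
  IsCompactOperator K → (∀ v, l (j v) = v) → (∀ v, (N + K) (j v) = j (A v)) →
  (∀ b ∈ B, b ∈ resolventSet ℂ N ∧ b ∈ resolventSet ℂ A) →
  ∃ R : G →L[ℂ] G, FiniteDimensional ℂ (LinearMap.range (R : G →ₗ[ℂ] G)) ∧ (∀ v, R (j v) = 0) ∧
    ∀ b ∈ B, b ∈ resolventSet ℂ (N + (K + R))

/-- **P_rate** (finite rank corrections do not change the rate). `R = ∑_{i<m} ψ_i ⊗ g_i` (basis of the range); `M ≥ ‖ψ_i‖, ‖g_i‖`.
Apply the hypothesis with `c = 1 + M`: `‖c K - F‖ ρ ≤ 1/2`; then `F/c + R` and `ρ' = c ρ ≥ ρ + M` (as `ρ ≥ 1`) serve for `K + R`: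
`‖(K + R) - (F/c + R)‖ ρ' = ‖c K - F‖ ρ ≤ 1/2`; `log (n + m + 1)`, `log (1 + log ρ')` change by constants. -/
def P_rate : Prop := ∀ (X : Type) [NormedAddCommGroup X] [NormedSpace ℂ X] [CompleteSpace X]
  (S K R : X →L[ℂ] X) (E : Set ℂ) (w : ℝ → ℝ), (∀ d, 0 ≤ w d) →
  (∀ c : ℝ, 0 < c → ∃ C : ℝ, RateW S ((c : ℂ) • K) E w C) →
  FiniteDimensional ℂ (LinearMap.range (R : X →ₗ[ℂ] X)) → ∃ C : ℝ, RateW S (K + R) E w C

/-- **P_left** (good points pass to operators similar to restrictions). If `z` is in both resolvent sets, `(z - C)⁻¹ j = j (z - A)⁻¹`, so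
`‖(z - A)⁻¹‖ ≤ ‖l‖ ‖j‖ ‖(z - C)⁻¹‖`; `log⁺ log⁺ (a x) ≤ const(a) + log⁺ log⁺ x`. Compare the proof of `log_left` in
`Pool.Graph.R_pool_sql_team_seeded_c8625f6e.K4H63.RD.B8`; `LL.measurable_resolvent_norm` (LL/Fin2.lean), `LL.add_rpow_le`. -/
def P_left : Prop := ∀ (G V : Type) [NormedAddCommGroup G] [NormedSpace ℂ G] [CompleteSpace G]
  [NormedAddCommGroup V] [NormedSpace ℂ V] [CompleteSpace V]
  (C : G →L[ℂ] G) (A : V →L[ℂ] V) (j : V →L[ℂ] G) (l : G →L[ℂ] V) (z₀ : ℂ) (r : ℝ),
  (∀ v, l (j v) = v) → (∀ v, C (j v) = j (A v)) → 0 < r →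
  volume (spectrum ℂ A ∩ ball z₀ r) = 0 → LogLogAt C z₀ → LogLogAt A z₀

/-- **P_sc** (the principle for compact self-commutators). `W706.HIR.key` with `M = ⊤`; for `V` hyperinvariant: if the spectrum of `T|V` has
two points use the hypothesis (`HasHyp (q(T|V))` gives `HasHyp (T|V)` by `cent_aeval`, K4H63.RD.B6); otherwise copy the second half of the proof of
`Pool.Agent.W610.HY.Reduct.main` (one point in the spectrum: compact up to a scalar, Lomonosov). -/
def P_sc : Prop := ∀ (H : Type) [NormedAddCommGroup H] [InnerProductSpace ℂ H] [CompleteSpace H]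
  (T : H →L[ℂ] H) (q : ℂ[X]), Reductive T → IsCompactOperator (sc T) →
  (∀ (V : Submodule ℂ H) (hV : Pool.Agent.W706.HIR.Hyper T V), (spectrum ℂ (T.restrict hV.inv)).Nontrivial →
      HasHyp (aeval (T.restrict hV.inv) q) ∨ HasHyp (T.restrict hV.inv)) → IsStarNormal T

/-- **P_restr** (restrictions of `q(T)` to hyperinvariant subspaces of a reductive operator). As in the proof of `final_log2` in
`Pool.Graph.R_pool_sql_team_seeded_c8625f6e.K4H63.RD.B9` (`aeval_restrict`, `Reduct.res_restrict`): spectra become smaller and norms of resolvents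
do not increase. -/
def P_restr : Prop := ∀ (H : Type) [NormedAddCommGroup H] [InnerProductSpace ℂ H] [CompleteSpace H]
  (T : H →L[ℂ] H) (q : ℂ[X]), Reductive T → ∀ (V : Submodule ℂ H) (hV : Pool.Agent.W706.HIR.Hyper T V),
  spectrum ℂ (aeval (T.restrict hV.inv) q) ⊆ spectrum ℂ (aeval T q) ∧
  ∀ z : ℂ, LogLogAt (aeval T q) z → LogLogAt (aeval (T.restrict hV.inv) q) z

/-- **P_toe** (reductive Toeplitz operators with Hölder symbols of any positive order). (1) As `T` is reductive, `z - T` is one-to-one and has a dense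
range for every `z` off the range of `φ` (`no_eig`, `no_eig'` in `Pool.Graph.R_pool_sql_team_seeded_3997aac3.Q76.RT.Noeig`, or directly:
an eigenvector of a reductive operator is an eigenvector of the adjoint, Coburn). (2) So in `LL.Calc.bound` (LL/Log.lean; its hypothesis
`¬ InfiniteChain` serves only to exclude the winding numbers `k ≠ 0`, for which `LL.Calc.chain_of_ne` (LL/Cal.lean) gives a factorisation
`T - z = E S^k F` or `E R^k F`, not bijective) the winding number is `0` and `LL.Calc.resolvent_of_zero` applies: the bound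
`‖(z - T)⁻¹‖ ≤ 2 exp (C/δ²)`; then as in the proof of `LL.Calc.chain` (LL/Fin.lean) with `LL.hoelder_modulus` and `LL.hilbert_chain`
(LL/Hoe.lean) the log-log condition. -/
def P_toe : Prop := ∀ (H : Type) [NormedAddCommGroup H] [InnerProductSpace ℂ H] [CompleteSpace H]
  (e : HilbertBasis ℕ ℂ H) (φ : UnitAddCircle → ℂ) (L α : ℝ≥0) (p : ℝ), 0 < α → HolderWith L α φ →
  1 < p → LL.LogThin (Set.range φ) p → ∀ T : H →L[ℂ] H,
  (∀ i j : ℕ, ⟪e i, T (e j)⟫_ℂ = fourierCoeff φ ((i : ℤ) - (j : ℤ))) → Reductive T →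
  ∀ z : ℂ, LogLogAt T z

/-- **P_toesc** (Toeplitz operators with continuous symbols have compact self-commutators). E.g. `LL` calculus `Θ : C(𝕋) →L (H →L H)` of
`P_hilb` (LL/Stm2.lean, `Pool.Agent.H571.LL.p_hilb`): `Θ f Θ g - Θ (f g)` is of finite rank for trigonometric polynomials (`R S = 1`,
`1 - S^n R^n` of rank `n`), hence compact for continuous `f, g` by density; the adjoint of `Θ f` is `Θ (conj f)` (entries). Or use
`Pool.Graph.R_pool_sql_team_seeded_3997aac3.Q76.RT.Comp` (`self_comm`, with absolutely summable dyadic pieces). -/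
def P_toesc : Prop := ∀ (H : Type) [NormedAddCommGroup H] [InnerProductSpace ℂ H] [CompleteSpace H]
  (e : HilbertBasis ℕ ℂ H) (φ : UnitAddCircle → ℂ), Continuous φ → ∀ T : H →L[ℂ] H,
  (∀ i j : ℕ, ⟪e i, T (e j)⟫_ℂ = fourierCoeff φ ((i : ℤ) - (j : ℤ))) → IsCompactOperator (sc T)

end Pool.Agent.H933.RN
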