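import Pool.Agent.H933.RN.Stm

/-!
# Perturbations on Banach spaces: statements
-/

set_option autoImplicit false

open MeasureTheory Metric Polynomial
open scoped Real InnerProductSpace NNReal

namespace Pool.Agent.H933.RN

open Pool.Agent.W402.HI Pool.Agent.W706.HIR Pool.Agent.H933.LL

/-- the resolvent of `S` is of polynomial growth of order `A` off the set `E` -/
def GrowthOff {X : Type} [NormedAddCommGroup X] [NormedSpace ℂ X] (S : X →L[ℂ] X) (E : Set ℂ)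
    (A : ℝ) : Prop :=
  ∃ C : ℝ, ∀ z : ℂ, z ∉ E → z ∈ resolventSet ℂ S ∧ ‖resolvent S z‖ ≤ C * (1 + (infDist z E) ^ (-A))

/-- `K` is approximated up to `δ` by sums of at most `exp (C δ ^ (-θ))` operators of rank one with bounded factors -/
def LogApprox {X : Type} [NormedAddCommGroup X] [NormedSpace ℂ X] (K : X →L[ℂ] X) (θ : ℝ) : Prop :=
  ∃ C : ℝ, ∀ δ : ℝ, 0 < δ → δ ≤ 1 → ∃ (n : ℕ) (φ : Fin n → (X →L[ℂ] ℂ)) (f : Fin n → X),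
    (n : ℝ) ≤ Real.exp (C * δ ^ (-θ)) ∧ (∀ i, ‖φ i‖ ≤ C ∧ ‖f i‖ ≤ C) ∧
    ‖K - ∑ i, (φ i).smulRight (f i)‖ ≤ δ

/-- **P_bann** (the rate for Banach spaces). Let `C₀`, `C₁` be the constants of the two hypotheses (w.l.o.g. `≥ 1`),
`B = 2 C₀ + (c + 1) C₁ + 1`, `ρ = B d^(-A) ≥ B ≥ 1`: `‖(z - S)⁻¹‖ ≤ C₀ (1 + d^(-A)) ≤ ρ` if `dist(z, E) ≥ d` (`d ≤ 1`), `‖c φ_i‖ ≤ c C₁ ≤ ρ`,
`‖f_i‖ ≤ ρ`. Take `δ = min 1 (1/(2 c ρ))`: `‖c K - ∑ (c φ_i) ⊗ f_i‖ ρ ≤ c δ ρ ≤ 1/2`, and `δ^(-θ) ≤ 1 + (2 c B)^θ d^(-Aθ)`, so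
`log (n+1) ≤ log 2 + C₁ δ^(-θ) ≤ C (1 + d^(-Aθ))`. `log (1 + log ρ) ≤ log ρ = log B + A log (1/d)`, `log (1/d) ≤ d^(-Aθ)/(Aθ)`. -/
def P_bann : Prop := ∀ (X : Type) [NormedAddCommGroup X] [NormedSpace ℂ X] [CompleteSpace X]
  (S K : X →L[ℂ] X) (E : Set ℂ) (A θ : ℝ), 0 < A → 0 < θ → GrowthOff S E A → LogApprox K θ →
  ∀ c : ℝ, 0 < c → ∃ C : ℝ, RateW S ((c : ℂ) • K) E (pw (A * θ)) C

/-- **P_apx** (Hilbert spaces). (1) `‖(z - N)⁻¹‖ ≤ 1/dist(z, σ(N))` for a normal operator. (2) With `I = {i : δ < s i}` and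
`F = ∑_{i ∈ I} s_i ⟪e_i, ·⟫ f_i`: `‖K - F‖ ≤ δ` (Bessel), `‖s_i ⟪e_i, ·⟫‖ = s_i ≤ ‖K‖`, `‖f_i‖ = 1`. Everything is in the proof of `P_nor5`:
`Pool/Agent/H21/LL/Nor5.lean` (main; theorem `Pool.Agent.H21.LL.p_nor5`), adapt. -/
def P_apx : Prop :=
  (∀ (H : Type) [NormedAddCommGroup H] [InnerProductSpace ℂ H] [CompleteSpace H] (N : H →L[ℂ] H),
    IsStarNormal N → (spectrum ℂ N).Nonempty → GrowthOff N (spectrum ℂ N) 1) ∧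
  ∀ (H : Type) [NormedAddCommGroup H] [InnerProductSpace ℂ H] [CompleteSpace H]
    (K : H →L[ℂ] H) (η : ℝ), 0 < η → LogSchatten K η → LogApprox K η

end Pool.Agent.H933.RN
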